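import Pool.Agent.H21.CST.S1

set_option autoImplicit false

namespace Pool.CST

theorem t_bxc : BXCStmt := by
  classical
  intro δ E m b f g hb hE
  obtain ⟨s, hs⟩ : ∃ s : Fin (δ + 2) → Finset ℕ, s = fun i =>
      if i = 0 then Finset.Ico f g
      else if i = Fin.last (δ + 1) then Finset.Ico (m - 1) (m - 1 + b) else Finset.range b :=
    ⟨_, rfl⟩
  have h0 : s 0 = Finset.Ico f g := by rw [hs]; simp
  have hlast : s (Fin.last (δ + 1)) = Finset.Ico (m - 1) (m - 1 + b) := by
    rw [hs]
    have : Fin.last (δ + 1) ≠ 0 := by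
      intro h; have := congrArg Fin.val h; simp at this
    simp [this]
  have hmid : ∀ j : Fin δ, s j.castSucc.succ = Finset.range b := by
    intro j
    rw [hs]
    have h1 : (j.castSucc.succ : Fin (δ + 2)) ≠ 0 := Fin.succ_ne_zero _
    have h2 : (j.castSucc.succ : Fin (δ + 2)) ≠ Fin.last (δ + 1) := by
      intro h
      have := congrArg Fin.val h
      simp at this
      have := j.isLt
      omega
    simp [h1, h2]
  have hcard : ∀ i : Fin (δ + 1), (s i.succ).card = b := by
    intro i
    refine Fin.lastCases ?_ (fun j => ?_) i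
    · rw [Fin.succ_last, hlast]; simp
    · rw [hmid j]; simp
  have hpi : (Fintype.piFinset s).card = (g - f) * b ^ (δ + 1) := by
    rw [Fintype.card_piFinset, Fin.prod_univ_succ, h0, Nat.card_Ico]
    congr 1
    rw [Finset.prod_congr rfl (fun i _ => hcard i)]
    simp
  rw [← hpi]
  refine Finset.card_le_card ?_
  intro a ha
  rw [Fintype.mem_piFinset] at ha
  have a0 := ha 0
  rw [h0, Finset.mem_Ico] at a0
  have al := ha (Fin.last (δ + 1))
  rw [hlast, Finset.mem_Ico] at al
  have am : ∀ j : Fin δ, a j.castSucc.succ < b := by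
    intro j
    have := ha j.castSucc.succ
    rw [hmid j, Finset.mem_range] at this
    exact this
  have hsum : ∑ i, a i < E := by
    rw [Fin.sum_univ_succ, Fin.sum_univ_castSucc, Fin.succ_last]
    have h1 : ∑ j : Fin δ, a j.castSucc.succ ≤ ∑ _j : Fin δ, b :=
      Finset.sum_le_sum fun j _ => (am j).le
    have h2 : ∑ _j : Fin δ, b = δ * b := by simp
    have h3 : (δ + 1) * b = δ * b + b := by ring
    have h4 : a (Fin.last δ.succ) < m - 1 + b := al.2
    omega
  rw [Finset.mem_filter]
  refine ⟨?_, a0.1, a0.2, by omega⟩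
  unfold Sx
  rw [Finset.mem_filter, Fintype.mem_piFinset]
  refine ⟨fun i => ?_, hsum⟩
  rw [Finset.mem_range]
  exact lt_of_le_of_lt (Finset.single_le_sum (fun i _ => Nat.zero_le (a i)) (Finset.mem_univ i)) hsum

end Pool.CST
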