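import Pool.Agent.H21.CST.S1

set_option autoImplicit false

namespace Pool.CST

theorem XX_pos84 : ∀ (δ k l : ℕ), 1 ≤ k → 1 ≤ l → 1 ≤ XX δ k l
  | 0, _, _, _, hl => hl
  | δ + 1, k, l, hk, hl => by
    have h := XX_pos84 δ (2 * k) (2 * l) (by omega) (by omega)
    show 1 ≤ 2 * k * XX δ (2 * k) (2 * l)
    exact Nat.one_le_iff_ne_zero.2 (Nat.mul_ne_zero (by omega) (by omega))

theorem XX_mono84 : ∀ (δ k k' l l' : ℕ), k ≤ k' → l ≤ l' → XX δ k l ≤ XX δ k' l'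
  | 0, _, _, _, _, _, hl => hl
  | δ + 1, k, k', l, l', hk, hl => by
    have h := XX_mono84 δ (2 * k) (2 * k') (2 * l) (2 * l') (by omega) (by omega)
    show 2 * k * XX δ (2 * k) (2 * l) ≤ 2 * k' * XX δ (2 * k') (2 * l')
    exact Nat.mul_le_mul (by omega) h

theorem XX_scale84 : ∀ (δ B K l : ℕ), XX δ (B * K) l = B ^ δ * XX δ K l
  | 0, B, K, l => by simp [XX]
  | δ + 1, B, K, l => by
    have h := XX_scale84 δ B (2 * K) (2 * l)
    show 2 * (B * K) * XX δ (2 * (B * K)) (2 * l) = B ^ (δ + 1) * (2 * K * XX δ (2 * K) (2 * l))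
    have e : 2 * (B * K) = B * (2 * K) := by ring
    rw [e, h, pow_succ]
    ring

theorem t_nq : NQStmt := by
  intro δ m F hm hF
  obtain ⟨g, hg⟩ : ∃ g, g = F / m := ⟨_, rfl⟩
  have hg1 : g * m ≤ F := by rw [hg]; exact Nat.div_mul_le_self F m
  have hg2 : F < (g + 1) * m := by
    rw [hg]
    rw [mul_comm]; exact Nat.lt_mul_div_succ F hm
  have hg3 : CC δ ≤ g := by
    rw [hg]; exact (Nat.le_div_iff_mul_le hm).2 hF
  obtain ⟨K, hK⟩ : ∃ K, K = 4 * (δ + 8) := ⟨_, rfl⟩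
  have hCC : CC δ = (δ + 1) * (4 * XX δ K 2) + 7 := by rw [hK]; rfl
  obtain ⟨B, hB⟩ : ∃ B, B = (g - 7) / (δ + 1) := ⟨_, rfl⟩
  have hB1 : 4 * XX δ K 2 ≤ B := by
    rw [hB]
    refine (Nat.le_div_iff_mul_le (by omega)).2 ?_
    have : (4 * XX δ K 2) * (δ + 1) = (δ + 1) * (4 * XX δ K 2) := by ring
    omega
  have hB2 : B * (δ + 1) ≤ g - 7 := by rw [hB]; exact Nat.div_mul_le_self _ _
  have hB3 : g - 7 < (B + 1) * (δ + 1) := by
    rw [hB]
    have := Nat.lt_mul_div_succ (g - 7) (show 0 < δ + 1 by omega)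
    rw [mul_comm]; exact this
  have hXK : 1 ≤ XX δ K 2 := XX_pos84 δ K 2 (by omega) (by omega)
  have hBpos : 1 ≤ B := by omega
  have hg7 : 7 ≤ g := by omega
  refine ⟨B * m, 2 * (g + 1), Nat.one_le_iff_ne_zero.2 (Nat.mul_ne_zero (by omega) (by omega)), ?_, ?_, ?_⟩
  · have h1 : m ≤ 2 * ((m + 1) / 2) := by omega
    calc F ≤ (g + 1) * m := hg2.le
      _ ≤ (g + 1) * (2 * ((m + 1) / 2)) := Nat.mul_le_mul le_rfl h1
      _ = 2 * (g + 1) * ((m + 1) / 2) := by ring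
  · have h1 : 5 * (m / 2 + 1) + 2 * m ≤ 7 * m := by omega
    have h2 : (δ + 1) * (B * m) ≤ (g - 7) * m := by
      calc (δ + 1) * (B * m) = (B * (δ + 1)) * m := by ring
        _ ≤ (g - 7) * m := Nat.mul_le_mul hB2 le_rfl
    have h3 : 7 * m + (g - 7) * m = g * m := by
      rw [← add_mul]; congr 1; omega
    omega
  · have h0 : 2 * (g + 1) ≤ B * K := by
      have h1 : g + 1 ≤ (B + 1) * (δ + 1) + 7 := by omega
      have h2 : (B + 1) * (δ + 1) ≤ (2 * B) * (δ + 1) := Nat.mul_le_mul (by omega) le_rfl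
      have h3 : 7 ≤ 7 * B := by omega
      have h4 : 2 * ((2 * B) * (δ + 1) + 7 * B) ≤ B * K := by
        rw [hK]
        have : B * (4 * (δ + 8)) = 2 * ((2 * B) * (δ + 1) + 7 * B) + 14 * B := by ring
        omega
      omega
    have h1 : XX δ (2 * (g + 1)) 2 ≤ B ^ δ * XX δ K 2 := by
      rw [← XX_scale84]
      exact XX_mono84 δ _ _ _ _ h0 le_rfl
    have h2 : 4 * XX δ (2 * (g + 1)) 2 ≤ B ^ (δ + 1) := by
      calc 4 * XX δ (2 * (g + 1)) 2 ≤ 4 * (B ^ δ * XX δ K 2) := Nat.mul_le_mul le_rfl h1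
        _ = B ^ δ * (4 * XX δ K 2) := by ring
        _ ≤ B ^ δ * B := Nat.mul_le_mul le_rfl hB1
        _ = B ^ (δ + 1) := (pow_succ B δ).symm
    have h3 : m < 2 * (m / 2 + 1) := by omega
    have h4 : 0 < B ^ (δ + 1) * m ^ (δ + 1) :=
      Nat.mul_pos (pow_pos (by omega) _) (pow_pos (by omega) _)
    calc 4 * XX δ (2 * (g + 1)) 2 * m ^ (δ + 2)
        ≤ B ^ (δ + 1) * m ^ (δ + 2) := Nat.mul_le_mul h2 le_rfl
      _ = m * (B ^ (δ + 1) * m ^ (δ + 1)) := by ring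
      _ < 2 * (m / 2 + 1) * (B ^ (δ + 1) * m ^ (δ + 1)) := Nat.mul_lt_mul_of_pos_right h3 h4
      _ = 2 * (m / 2 + 1) * (B * m) ^ (δ + 1) := by rw [mul_pow]

end Pool.CST
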